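import Pool.Agent.H29.SF.GLZ

/-!
# MP_70ba79_ag, THEOREM S, chapter 14: row FBZ (degree of the map)
-/

set_option autoImplicit false

namespace Pool.Agent.H29.SF

open MvPolynomial SC
open Pool.Agent.H84.SF
open Pool.Agent.H27.LV (ge deg poleOrder canDeg DegreeBound)
open Pool.Agent.H84.SM (cr dt dp)
open Pool.Agent.H84.SL (pd)
open Pool.Agent.H3.SF (Itg Bb BB Hm eu grd hes Sfc Crd Crf Prm)
open Pool.Agent.H17.SD (Prj Smo HRel)

theorem pole_mul_gen {k K0 K σ : Type} [Field k] [Field K0] [Algebra k K0] [Field K]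
    [Algebra k K] [Fintype σ] (ι : K0 →ₐ[k] K) (x0 : σ → K0) (v : DV k K) (w : DV k K0) (e : ℕ)
    (h : ∀ z, v.ord (ι z) = e * w.ord z) :
    poleOrder v (fun i => ι (x0 i)) = e * poleOrder w x0 := by
  have h1 : ∀ i, (-(v.ord (ι (x0 i)))).toNat = e * (-(w.ord (x0 i))).toNat := by
    intro i
    rw [h]
    rcases le_total 0 (w.ord (x0 i)) with h2 | h2
    · have h3 : (0 : ℤ) ≤ (e : ℤ) * w.ord (x0 i) := mul_nonneg (Int.natCast_nonneg e) h2
      rw [Int.toNat_of_nonpos (by omega), Int.toNat_of_nonpos (by omega), mul_zero]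
    · obtain ⟨p, hp⟩ := Int.eq_ofNat_of_zero_le (neg_nonneg.2 h2)
      have h3 : -((e : ℤ) * w.ord (x0 i)) = ((e * p : ℕ) : ℤ) := by
        push_cast
        rw [← hp]
        ring
      rw [h3, hp, Int.toNat_natCast, Int.toNat_natCast]
  have h2 : poleOrder v (fun i => ι (x0 i)) =
      Finset.univ.sup fun i => e * (-(w.ord (x0 i))).toNat := by
    unfold poleOrder
    exact Finset.sup_congr rfl fun i _ => h1 i
  rw [h2]
  apply le_antisymm
  · refine Finset.sup_le fun i _ => ?_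
    exact Nat.mul_le_mul_left e
      (Finset.le_sup (f := fun i => (-(w.ord (x0 i))).toNat) (Finset.mem_univ i))
  · rcases isEmpty_or_nonempty σ with hσ | hσ
    · have h3 : poleOrder w x0 = 0 := by
        unfold poleOrder
        simp
      rw [h3]
      exact Nat.zero_le _
    · obtain ⟨i, -, hi⟩ := Finset.exists_mem_eq_sup (Finset.univ : Finset σ)
        Finset.univ_nonempty (fun i => (-(w.ord (x0 i))).toNat)
      have h4 : poleOrder w x0 = (-(w.ord (x0 i))).toNat := hi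
      rw [h4]
      exact Finset.le_sup (f := fun i => e * (-(w.ord (x0 i))).toNat) (Finset.mem_univ i)

theorem lin_mul {k σ A : Type} [Field k] [Fintype σ] [CommRing A] [Algebra k A]
    (c : Fin 3 → σ → k) (t : A) (z : σ → A) (l : Fin 3) :
    lin c (fun s => t * z s) l = t * lin c z l := by
  unfold lin
  rw [Finset.mul_sum]
  exact Finset.sum_congr rfl fun s _ => (mul_smul_comm _ _ _).symm

theorem lin_map {k σ A B : Type} [Field k] [Fintype σ] [CommRing A] [Algebra k A] [CommRing B]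
    [Algebra k B] (c : Fin 3 → σ → k) (ι : A →ₐ[k] B) (z : σ → A) (l : Fin 3) :
    lin c (fun s => ι (z s)) l = ι (lin c z l) := by
  unfold lin
  rw [map_sum]
  exact Finset.sum_congr rfl fun s _ => (map_smul _ _ _).symm

theorem pf_FBZ (hMXZ : T_MXZ) (hX1Z : T_X1Z) (hDGZ : T_DGZ) (hDGE : T_DGE) (hPOZ : T_POZ)
    (hPRZ : T_PRZ) (hPHI : Pool.Agent.H17.SD.T_PHI) (hDPN : Pool.Agent.H15.FOS.T_DPN)
    (hLRH : Pool.Agent.H84.SL.T_LRH) : T_FBZ := by
  classical
  intro δ j0 c0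
  obtain ⟨m1, hm1⟩ := hMXZ δ j0 c0
  refine ⟨max m1 (j0 + 4), ?_⟩
  intro k F σ _ _ _ _ _ _ X u θ dd J c hS m GP hm hCv
  obtain ⟨B, hB⟩ := hm1 k F σ X u θ dd J c hS m GP ((le_max_left _ _).trans hm) hCv
  obtain ⟨N1, Ψ1, hΨ1, hΨ1h, hX1⟩ := hX1Z k F σ X u θ dd J δ j0 c0 c hS m GP
    ((le_max_right _ _).trans hm) hCv (δ * B)
  have hJh : J.IsHomogeneous j0 := hS.sfc.Jh
  have hJ0 : J ≠ 0 := hS.sfc.J0
  have hXeu := hS.prj.Xeu
  have hlinX : lin c X = u := by
    funext l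
    rw [hS.lin l]
    rfl
  refine ⟨δ * B, 1 * (j0 + N1), aeval (lin c (MvPolynomial.X : σ → MvPolynomial σ k)) (J * Ψ1),
    ?_, ?_, ?_⟩
  · rw [RingHom.mem_ker, aeval_lin, hlinX]
    intro h
    have h1 := (algebraicIndependent_iff_injective_aeval.1 hS.sfc.ind) (h.trans (map_zero _).symm)
    exact mul_ne_zero hJ0 hΨ1 h1
  · refine (hJh.mul hΨ1h).aeval _ fun l => ?_
    unfold lin
    refine IsHomogeneous.sum _ _ _ fun s _ => ?_
    rw [smul_eq_C_mul]
    have := (isHomogeneous_C σ (c l s)).mul (isHomogeneous_X k s)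
    rwa [zero_add] at this
  intro K _ _ _ htr D hD z S hx hne hnc
  rw [aeval_lin, map_mul] at hne
  have hneJ : aeval (lin c z) J ≠ 0 := left_ne_zero_of_mul hne
  have hneΨ : aeval (lin c z) Ψ1 ≠ 0 := right_ne_zero_of_mul hne
  rcases hPRZ k σ _ GP m hCv.hom K htr D hD z S hx with hc | hc
  · exfalso
    obtain ⟨i, hi⟩ := hnc
    exact hi (hc i)
  obtain ⟨K0, iF, iA, iE, ι, z0, D0, μ, S1, htr0, hD0, hιx, hprim, hμ, hDι, hcrv1, hcard⟩ := hc
  have hzι : z = fun i => ι (z0 i) := funext fun i => (hιx i).symm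
  have hev : ∀ P : MvPolynomial σ k, aeval z P = ι (aeval z0 P) := by
    intro P
    rw [hzι]
    exact (comp_aeval_apply z0 ι P).symm
  have hlinι : lin c z = fun l => ι (lin c z0 l) := by
    funext l
    rw [hzι, lin_map]
  have hev3 : ∀ P : MvPolynomial (Fin 3) k, aeval (lin c z) P = ι (aeval (lin c z0) P) := by
    intro P
    rw [hlinι]
    exact (comp_aeval_apply (lin c z0) ι P).symm
  have hJz0 : aeval (lin c z0) J ≠ 0 := by
    intro h
    apply hneJ
    rw [hev3, h, map_zero]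
  have hone : ∃ j, z0 j = 1 := hcrv1.one
  -- the smaller set of places
  obtain ⟨S0, hS0⟩ : ∃ S0 : Finset (DV k K0), S0 = S1.filter
      (fun w => w.ord (aeval z0 GP) ≠ -(m * poleOrder w z0)) := ⟨_, rfl⟩
  have hcrv0 : CrI (RingHom.ker (aeval X : MvPolynomial σ k →ₐ[k] F)) GP m z0 S0 := by
    refine ⟨hcrv1.on, hone, hcrv1.ne, ?_⟩
    intro w hw
    by_cases h1 : w ∈ S1
    · by_contra h2
      apply hw
      rw [hS0]
      exact Finset.mem_filter.2 ⟨h1, h2⟩
    · exact hcrv1.off w h1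
  have hI0 : ∀ f : MvPolynomial σ k, aeval X f = 0 → aeval z0 f = 0 := fun f hf =>
    hcrv1.on f (RingHom.mem_ker.2 hf)
  have hI : ∀ f : MvPolynomial σ k, aeval X f = 0 → aeval z f = 0 := fun f hf => by
    rw [hev, hI0 f hf, map_zero]
  obtain ⟨M, hM, hdeg, hRH⟩ := hLRH k K0 K ι htr0 htr D0 D hD0 hD
  have hRH0 := hRH S0 S (by
    intro w hw v e he hve
    by_contra hv
    have h1 := hx.off v hv
    rw [hev, hve, hzι, pole_mul_gen ι z0 v w e hve] at h1
    rw [hS0] at hw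
    apply (Finset.mem_filter.1 hw).2
    have h2 : (e : ℤ) ≠ 0 := by
      have : e ≠ 0 := by omega
      exact_mod_cast this
    apply mul_left_cancel₀ h2
    rw [h1]
    push_cast
    ring)
  obtain ⟨e, Φ, he, hΦ, hΦh, hΦx⟩ := hB K0 htr0 D0 hD0 z0 S0 hcrv0 hJz0
  -- the affine plane image
  obtain ⟨l0, hl0, -⟩ := hPOZ k F σ K0 X u dd c hS.sfc.du hS.prj.Xint hXeu hS.lin z0 hI0 hone
  obtain ⟨t, ht⟩ : ∃ t : K0, t = (lin c z0 l0)⁻¹ := ⟨_, rfl⟩
  have ht0 : t ≠ 0 := by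
    rw [ht]
    exact inv_ne_zero hl0
  obtain ⟨y0, hy0⟩ : ∃ y0 : Fin 3 → K0, y0 = fun l => lin c z0 l / lin c z0 l0 := ⟨_, rfl⟩
  have hy0t : y0 = fun l => t * lin c z0 l := by
    rw [hy0, ht]
    funext l
    rw [div_eq_inv_mul]
  have hy01 : ∃ j, y0 j = 1 := ⟨l0, by rw [hy0]; exact div_self hl0⟩
  have hΦy : aeval y0 Φ = 0 := by
    rw [hy0t, aeval_mul_hom Φ e hΦh, hΦx, mul_zero]
  have hI1 : ∀ f : MvPolynomial σ k, aeval X f = 0 → aeval (fun s => t * z0 s) f = 0 := by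
    intro f hf
    rw [← sum_homogeneousComponent f, map_sum]
    refine Finset.sum_eq_zero fun i _ => ?_
    rw [aeval_mul_hom _ i (homogeneousComponent_isHomogeneous i f),
      comp_zero X u dd hXeu z0 hI0 f hf i, mul_zero]
  have hJ1 : aeval (fun l => ∑ s, c l s • (t * z0 s)) J ≠ 0 := by
    have e1 : (fun l => ∑ s, c l s • (t * z0 s)) = fun l => t * lin c z0 l := by
      funext l
      exact lin_mul c t z0 l
    rw [e1, aeval_mul_hom J j0 hJh]
    exact mul_ne_zero (pow_ne_zero _ ht0) hJz0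
  obtain ⟨φ0, hφ0⟩ := hPHI k F σ K0 X u θ dd J hS.sfc.ind hS.prj (fun s => t * z0 s) hI1 c hS.lin
    hJ1
  have hφu : ∀ (i : Fin 3) (b : Bb k u), (b : F) = u i → φ0 b = y0 i := by
    intro i b hb
    have hbX : ∀ s, ∃ bs : Bb k u, (bs : F) = X s := fun s => ⟨⟨X s, hS.prj.Xint s⟩, rfl⟩
    choose bs hbs using hbX
    have e1 : b = ∑ s, c i s • bs s := by
      apply Subtype.ext
      rw [hb, hS.lin i]
      simp only [AddSubmonoidClass.coe_finsetSum, Subalgebra.coe_smul, hbs]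
    rw [e1, map_sum, hy0t]
    have e2 : ∀ s, φ0 (c i s • bs s) = c i s • (t * z0 s) := fun s => by
      rw [map_smul, hφ0 s (bs s) (hbs s)]
    rw [Finset.sum_congr rfl fun s _ => e2 s]
    exact lin_mul c t z0 i
  have hPrm : Prm φ0 := by
    unfold Prm
    rw [eq_top_iff, ← hprim, IntermediateField.adjoin_le_iff]
    rintro _ ⟨s, rfl⟩
    obtain ⟨j, hj⟩ := hone
    have hmem : ∀ s, t * z0 s ∈ IntermediateField.adjoin k (Set.range φ0) := by
      intro s
      rw [← hφ0 s ⟨X s, hS.prj.Xint s⟩ rfl]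
      exact IntermediateField.subset_adjoin k _ ⟨_, rfl⟩
    have h1 := hmem j
    rw [hj, mul_one] at h1
    have h2 := (IntermediateField.adjoin k (Set.range φ0)).mul_mem
      ((IntermediateField.adjoin k (Set.range φ0)).inv_mem h1) (hmem s)
    rwa [inv_mul_cancel_left₀ ht0] at h2
  have hDep := hDPN k F K0 u δ hS.sfc.ind hS.sfc.rank hS.sfc.pos φ0 y0 hφu hPrm
  have hdy : deg k y0 ≤ δ * e := hDGZ k K0 htr0 y0 δ hy01 hDep e Φ hΦ hΦh hΦy
  have hdyz : deg k y0 = deg k z0 := by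
    rw [hy0]
    exact hDGE k F σ K0 htr0 X u dd c hS.sfc.du hS.prj.Xint hXeu hS.lin z0 hI0 hone l0 hl0
  have hdz : deg k z0 ≤ δ * e := by rw [← hdyz]; exact hdy
  have hchi : 1 ≤ canDeg D0 + S0.card := by
    by_contra hcon
    have hle : canDeg D0 + S0.card ≤ 0 := by omega
    rw [max_eq_left (by omega : canDeg D0 + S0.card ≤ 1), mul_one] at he
    have h1 : e ≤ B := by exact_mod_cast he
    apply hneΨ
    rw [hev3, hX1 K0 htr0 D0 hD0 z0 S0 hprim hcrv0
      (hdz.trans (Nat.mul_le_mul_left _ h1)) hle, map_zero]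
  rw [max_eq_right hchi] at he
  have hM' : (1 : ℤ) ≤ M := by exact_mod_cast hM
  have hδ0 : (0 : ℤ) ≤ δ := Int.natCast_nonneg δ
  have hd2 : (deg k z0 : ℤ) ≤ δ * (B * (canDeg D0 + S0.card)) := by
    refine le_trans (by exact_mod_cast hdz : (deg k z0 : ℤ) ≤ δ * e) ?_
    exact mul_le_mul_of_nonneg_left he hδ0
  refine ⟨?_, ?_⟩
  · nlinarith
  · have hl0' : lin c z l0 ≠ 0 := by
      rw [hlinι]
      intro h
      exact hl0 ((map_eq_zero ι).1 h)
    have h3 : deg k z = M * deg k z0 := by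
      rw [← hDGE k F σ K htr X u dd c hS.sfc.du hS.prj.Xint hXeu hS.lin z hI hx.one l0 hl0',
        ← hdyz, ← hdeg y0]
      congr 1
      funext l
      rw [hlinι, hy0]
      exact (map_div₀ ι _ _).symm
    rw [h3]
    push_cast
    have hB0 : (0 : ℤ) ≤ δ * B := mul_nonneg hδ0 (Int.natCast_nonneg B)
    calc (M : ℤ) * (deg k z0 : ℤ) ≤ M * (δ * (B * (canDeg D0 + S0.card))) :=
          mul_le_mul_of_nonneg_left hd2 (by omega)
      _ = δ * B * (M * (canDeg D0 + S0.card)) := by ring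
      _ ≤ δ * B * (canDeg D + S.card) := mul_le_mul_of_nonneg_left hRH0 hB0

end Pool.Agent.H29.SF
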